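import Pool.Agent.V11330.Rotor.Phase

namespace Pool.Rotor

/-- left, right, bottom and top of the nested boxes -/
def bx : ℕ → ℤ × ℤ × ℤ × ℤ
  | 0 => (0, 0, 0, 0)
  | i + 1 =>
    ((bx i).1 - 1 - ((bx i).2.1 - (bx i).1 + 1), (bx i).2.1 + 1,
      (bx i).2.2.1 - ((bx i).2.1 - (bx i).1 + 1), (bx i).2.2.2 + ((bx i).2.1 - (bx i).1 + 1))

/-- membership in the `i`-th box -/
def In (i : ℕ) (x : ℤ × ℤ) : Prop :=
  (bx i).2.2.1 ≤ x.2 ∧ x.2 ≤ (bx i).2.2.2 ∧ (bx i).1 ≤ x.1 ∧ x.1 ≤ (bx i).2.1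

instance (i : ℕ) (x : ℤ × ℤ) : Decidable (In i x) := by unfold In; infer_instance

lemma bx_lr (i : ℕ) : (bx i).1 ≤ (bx i).2.1 := by
  induction i with
  | zero => exact le_rfl
  | succ i ih => simp only [bx]; omega

lemma bx_BT (i : ℕ) : (bx i).2.2.1 ≤ (bx i).2.2.2 := by
  induction i with
  | zero => exact le_rfl
  | succ i ih =>
    have := bx_lr i
    simp only [bx]; omega

lemma bx_bounds (i : ℕ) : (bx i).1 ≤ -i ∧ (i : ℤ) ≤ (bx i).2.1 ∧ (bx i).2.2.1 ≤ -i ∧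
    (i : ℤ) ≤ (bx i).2.2.2 := by
  induction i with
  | zero => simp [bx]
  | succ i ih =>
    have := bx_lr i
    obtain ⟨h1, h2, h3, h4⟩ := ih
    simp only [bx]
    push_cast
    refine ⟨?_, ?_, ?_, ?_⟩ <;> omega

lemma In.succ {i : ℕ} {x : ℤ × ℤ} (h : In i x) : In (i + 1) x := by
  obtain ⟨h1, h2, h3, h4⟩ := h
  have := bx_lr i
  unfold In
  simp only [bx]
  refine ⟨?_, ?_, ?_, ?_⟩ <;> omega

lemma In.mono {i j : ℕ} {x : ℤ × ℤ} (h : In i x) (hij : i ≤ j) : In j x := by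
  induction j, hij using Nat.le_induction with
  | base => exact h
  | succ j _ ih => exact ih.succ

lemma exists_In (x : ℤ × ℤ) : ∃ i, In i x := by
  refine ⟨x.1.natAbs + x.2.natAbs, ?_⟩
  obtain ⟨h1, h2, h3, h4⟩ := bx_bounds (x.1.natAbs + x.2.natAbs)
  unfold In
  refine ⟨?_, ?_, ?_, ?_⟩ <;> omega

lemma In_zero (i : ℕ) : In i (0, 0) := by
  obtain ⟨h1, h2, h3, h4⟩ := bx_bounds i
  unfold In
  refine ⟨?_, ?_, ?_, ?_⟩ <;> simp only <;> omega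

/-- the layer numbers -/
def LN (i : ℕ) (x : ℤ × ℤ) : ℕ := lN (bx i).1 (bx i).2.1 (bx i).2.2.1 (bx i).2.2.2 x.1 x.2
def LE' (i : ℕ) (x : ℤ × ℤ) : ℕ := lE (bx i).1 (bx i).2.1 (bx i).2.2.1 (bx i).2.2.2 x.1 x.2
def LS (i : ℕ) (x : ℤ × ℤ) : ℕ := lS (bx i).1 (bx i).2.1 (bx i).2.2.1 (bx i).2.2.2 x.1 x.2
def LW (i : ℕ) (x : ℤ × ℤ) : ℕ := lW (bx i).1 (bx i).2.1 (bx i).2.2.1 (bx i).2.2.2 x.1 x.2

/-- total number of exits in the layer -/
def lay (i : ℕ) (x : ℤ × ℤ) : ℕ := LN i x + LE' i x + LS i x + LW i x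

lemma lay_balance (i : ℕ) (x : ℤ × ℤ) :
    LN i (x.1, x.2 - 1) + LE' i (x.1 - 1, x.2) + LS i (x.1, x.2 + 1) + LW i (x.1 + 1, x.2)
      = lay i x :=
  balance _ _ _ _ _ _ (bx_lr i) (bx_BT i)

/-- the initial rotor configuration -/
noncomputable def r0 (x : ℤ × ℤ) : Fin 5 :=
  if Nat.find (exists_In x) = 0 then 0
  else phase (bx (Nat.find (exists_In x) - 1)).1 (bx (Nat.find (exists_In x) - 1)).2.1
    (bx (Nat.find (exists_In x) - 1)).2.2.1 (bx (Nat.find (exists_In x) - 1)).2.2.2 x.1 x.2 - 1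

lemma r0_eq {i : ℕ} {x : ℤ × ℤ} (h : ¬ In i x) (h' : In (i + 1) x) :
    r0 x = phase (bx i).1 (bx i).2.1 (bx i).2.2.1 (bx i).2.2.2 x.1 x.2 - 1 := by
  have hf : Nat.find (exists_In x) = i + 1 := by
    rw [Nat.find_eq_iff]
    refine ⟨h', fun n hn hIn => h (hIn.mono (by omega))⟩
  unfold r0
  rw [hf, if_neg (by omega)]
  rfl

/-- the odometer functions -/
def vv : ℕ → ℤ × ℤ → ℕ
  | 0 => fun _ => 0
  | k + 1 => fun x => vv k x + lay k x

lemma lay_zero {i : ℕ} {x : ℤ × ℤ} (h : ¬ In (i + 1) x) :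
    LN i x = 0 ∧ LE' i x = 0 ∧ LS i x = 0 ∧ LW i x = 0 := by
  refine layer_zero _ _ _ _ _ _ (bx_lr i) (bx_BT i) fun h' => h ?_
  unfold In
  simp only [bx]
  exact h'

lemma vv_zero {k : ℕ} {x : ℤ × ℤ} (h : ¬ In k x) : vv k x = 0 := by
  induction k with
  | zero => rfl
  | succ k ih =>
    have h1 : ¬ In k x := fun h' => h h'.succ
    obtain ⟨e1, e2, e3, e4⟩ := lay_zero h
    show vv k x + lay k x = 0
    rw [ih h1]
    unfold lay
    omega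

lemma cnt_vv_succ (k : ℕ) (x : ℤ × ℤ) :
    cnt dN (r0 x) (vv (k + 1) x) = cnt dN (r0 x) (vv k x) + LN k x ∧
    cnt dE (r0 x) (vv (k + 1) x) = cnt dE (r0 x) (vv k x) + LE' k x ∧
    cnt dS (r0 x) (vv (k + 1) x) = cnt dS (r0 x) (vv k x) + LS k x ∧
    cnt dW (r0 x) (vv (k + 1) x) = cnt dW (r0 x) (vv k x) + LW k x := by
  show cnt dN (r0 x) (vv k x + lay k x) = _ ∧ cnt dE (r0 x) (vv k x + lay k x) = _ ∧
    cnt dS (r0 x) (vv k x + lay k x) = _ ∧ cnt dW (r0 x) (vv k x + lay k x) = _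
  by_cases h : In k x
  · obtain ⟨e1, e2, e3, e4⟩ := layer_in _ _ _ _ _ _ h
    have f1 : LN k x = 2 := e1
    have f2 : LE' k x = 1 := e2
    have f3 : LS k x = 1 := e3
    have f4 : LW k x = 1 := e4
    have f5 : lay k x = 5 := by unfold lay; omega
    rw [f5, f1, f2, f3, f4]
    exact ⟨cntN_add_five _ _, cntE_add_five _ _, cntS_add_five _ _, cntW_add_five _ _⟩
  · rw [vv_zero h, zero_add]
    by_cases h' : In (k + 1) x
    · have hg := good_layer (bx k).1 (bx k).2.1 (bx k).2.2.1 (bx k).2.2.2 x.1 x.2 (bx_lr k)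
        (bx_BT k) h
      obtain ⟨g1, g2, g3, g4⟩ := h'
      simp only [bx] at g1 g2 g3 g4
      have hg' := hg g3 g4 g1 g2
      rw [r0_eq h ⟨by simpa only [bx] using g1, by simpa only [bx] using g2,
        by simpa only [bx] using g3, by simpa only [bx] using g4⟩]
      obtain ⟨q1, q2, q3, q4⟩ := hg'
      simp only [cnt, zero_add]
      exact ⟨q1, q2, q3, q4⟩
    · obtain ⟨e1, e2, e3, e4⟩ := lay_zero h'
      have f5 : lay k x = 0 := by unfold lay; omega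
      rw [f5, e1, e2, e3, e4]
      simp [cnt]

/-- arrivals at `x` when the vertices use `v` exits -/
noncomputable def inflow (r : ℤ × ℤ → Fin 5) (v : ℤ × ℤ → ℕ) (x : ℤ × ℤ) : ℕ :=
  cnt dN (r (x.1, x.2 - 1)) (v (x.1, x.2 - 1)) + cnt dE (r (x.1 - 1, x.2)) (v (x.1 - 1, x.2))
    + cnt dS (r (x.1, x.2 + 1)) (v (x.1, x.2 + 1)) + cnt dW (r (x.1 + 1, x.2)) (v (x.1 + 1, x.2))

lemma inflow_vv (k : ℕ) (x : ℤ × ℤ) : inflow r0 (vv k) x = vv k x := by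
  induction k with
  | zero => simp [inflow, vv, cnt]
  | succ k ih =>
    have h1 := (cnt_vv_succ k (x.1, x.2 - 1)).1
    have h2 := (cnt_vv_succ k (x.1 - 1, x.2)).2.1
    have h3 := (cnt_vv_succ k (x.1, x.2 + 1)).2.2.1
    have h4 := (cnt_vv_succ k (x.1 + 1, x.2)).2.2.2
    have h5 := lay_balance k x
    unfold inflow at ih ⊢
    rw [h1, h2, h3, h4]
    show _ = vv k x + lay k x
    omega

lemma vv_origin (k : ℕ) : vv k (0, 0) = 5 * k := by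
  induction k with
  | zero => rfl
  | succ k ih =>
    obtain ⟨e1, e2, e3, e4⟩ := layer_in _ _ _ _ _ _ (In_zero k)
    have f1 : LN k (0, 0) = 2 := e1
    have f2 : LE' k (0, 0) = 1 := e2
    have f3 : LS k (0, 0) = 1 := e3
    have f4 : LW k (0, 0) = 1 := e4
    show vv k (0, 0) + lay k (0, 0) = _
    rw [ih]
    unfold lay
    omega

end Pool.Rotor
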