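import Mathlib

namespace Pool.Rotor

/-- number of exits to the north in one layer -/
def lN (l r B T c y : ℤ) : ℕ :=
  if B ≤ y ∧ y ≤ T ∧ l ≤ c ∧ c ≤ r then 2
  else if y = B - 1 ∧ l ≤ c ∧ c ≤ r then 2
  else if y ≤ B - 2 ∧ l ≤ c ∧ c ≤ r + 1 - (B - y) then 1
  else if T + 1 ≤ y ∧ l ≤ c ∧ c ≤ r - (y - T) then 1
  else 0

/-- number of exits to the east in one layer -/
def lE (l r B T c y : ℤ) : ℕ :=
  if B ≤ y ∧ y ≤ T ∧ l ≤ c ∧ c ≤ r then 1
  else if B ≤ y ∧ y ≤ T ∧ c = l - 1 then 1
  else if y ≤ B - 1 ∧ B - y ≤ r - l + 1 ∧ l - 1 - (B - y) ≤ c ∧ c ≤ r - (B - y) then 1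
  else 0

/-- number of exits to the south in one layer -/
def lS (l r B T c y : ℤ) : ℕ :=
  if B ≤ y ∧ y ≤ T ∧ l ≤ c ∧ c ≤ r then 1
  else if y = T + 1 ∧ l ≤ c ∧ c ≤ r then 1
  else if c ≤ l - 2 ∧ l - 1 - c ≤ r - l + 1 ∧ B - (l - 1 - c) + 1 ≤ y ∧ y ≤ T + (l - 1 - c) then 1
  else 0

/-- number of exits to the west in one layer -/
def lW (l r B T c y : ℤ) : ℕ :=
  if B ≤ y ∧ y ≤ T ∧ l ≤ c ∧ c ≤ r then 1
  else if B ≤ y ∧ y ≤ T ∧ c = r + 1 then 1
  else if T + 1 ≤ y ∧ y - T ≤ r - l + 1 ∧ l - (y - T) ≤ c ∧ c ≤ r + 1 - (y - T) then 1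
  else 0

set_option linter.all false

lemma balance_below (l r B T c y : ℤ) (h1 : l ≤ r) (h2 : B ≤ T) (hy : y ≤ B - 2) :
    lN l r B T c (y - 1) + lE l r B T (c - 1) y + lS l r B T c (y + 1) + lW l r B T (c + 1) y
      = lN l r B T c y + lE l r B T c y + lS l r B T c y + lW l r B T c y := by
  unfold lN lE lS lW
  rcases lt_or_ge c l with hc | hc
  · rcases lt_or_ge c (l - 1) with hc' | hc'
    · simp (disch := omega) only [if_pos, if_neg]
      try split_ifs <;> omega
    · simp (disch := omega) only [if_pos, if_neg]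
      try split_ifs <;> omega
  · rcases lt_trichotomy r c with hc' | hc' | hc'
    · simp (disch := omega) only [if_pos, if_neg]
      try split_ifs <;> omega
    · simp (disch := omega) only [if_pos, if_neg]
      try split_ifs <;> omega
    · simp (disch := omega) only [if_pos, if_neg]
      try split_ifs <;> omega

lemma balance_b1 (l r B T c y : ℤ) (h1 : l ≤ r) (h2 : B ≤ T) (hy : y = B - 1) :
    lN l r B T c (y - 1) + lE l r B T (c - 1) y + lS l r B T c (y + 1) + lW l r B T (c + 1) y
      = lN l r B T c y + lE l r B T c y + lS l r B T c y + lW l r B T c y := by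
  unfold lN lE lS lW
  rcases lt_or_ge c l with hc | hc
  · rcases lt_or_ge c (l - 1) with hc' | hc'
    · simp (disch := omega) only [if_pos, if_neg]
      try split_ifs <;> omega
    · simp (disch := omega) only [if_pos, if_neg]
      try split_ifs <;> omega
  · rcases lt_trichotomy r c with hc' | hc' | hc'
    · simp (disch := omega) only [if_pos, if_neg]
      try split_ifs <;> omega
    · simp (disch := omega) only [if_pos, if_neg]
      try split_ifs <;> omega
    · simp (disch := omega) only [if_pos, if_neg]
      try split_ifs <;> omega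

lemma balance_mid (l r B T c y : ℤ) (h1 : l ≤ r) (h2 : B ≤ T) (hy : B ≤ y) (hy' : y ≤ T) :
    lN l r B T c (y - 1) + lE l r B T (c - 1) y + lS l r B T c (y + 1) + lW l r B T (c + 1) y
      = lN l r B T c y + lE l r B T c y + lS l r B T c y + lW l r B T c y := by
  unfold lN lE lS lW
  rcases lt_or_ge c l with hc | hc
  · rcases lt_or_ge c (l - 1) with hc' | hc'
    · simp (disch := omega) only [if_pos, if_neg]
      try split_ifs <;> omega
    · simp (disch := omega) only [if_pos, if_neg]
      try split_ifs <;> omega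
  · rcases lt_trichotomy r c with hc' | hc' | hc'
    · simp (disch := omega) only [if_pos, if_neg]
      try split_ifs <;> omega
    · simp (disch := omega) only [if_pos, if_neg]
      try split_ifs <;> omega
    · simp (disch := omega) only [if_pos, if_neg]
      try split_ifs <;> omega

lemma balance_t1 (l r B T c y : ℤ) (h1 : l ≤ r) (h2 : B ≤ T) (hy : y = T + 1) :
    lN l r B T c (y - 1) + lE l r B T (c - 1) y + lS l r B T c (y + 1) + lW l r B T (c + 1) y
      = lN l r B T c y + lE l r B T c y + lS l r B T c y + lW l r B T c y := by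
  unfold lN lE lS lW
  rcases lt_or_ge c l with hc | hc
  · rcases lt_or_ge c (l - 1) with hc' | hc'
    · simp (disch := omega) only [if_pos, if_neg]
      try split_ifs <;> omega
    · simp (disch := omega) only [if_pos, if_neg]
      try split_ifs <;> omega
  · rcases lt_trichotomy r c with hc' | hc' | hc'
    · simp (disch := omega) only [if_pos, if_neg]
      try split_ifs <;> omega
    · simp (disch := omega) only [if_pos, if_neg]
      try split_ifs <;> omega
    · simp (disch := omega) only [if_pos, if_neg]
      try split_ifs <;> omega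

lemma balance_above (l r B T c y : ℤ) (h1 : l ≤ r) (h2 : B ≤ T) (hy : T + 2 ≤ y) :
    lN l r B T c (y - 1) + lE l r B T (c - 1) y + lS l r B T c (y + 1) + lW l r B T (c + 1) y
      = lN l r B T c y + lE l r B T c y + lS l r B T c y + lW l r B T c y := by
  unfold lN lE lS lW
  rcases lt_or_ge c l with hc | hc
  · rcases lt_or_ge c (l - 1) with hc' | hc'
    · simp (disch := omega) only [if_pos, if_neg]
      try split_ifs <;> omega
    · simp (disch := omega) only [if_pos, if_neg]
      try split_ifs <;> omega
  · rcases lt_trichotomy r c with hc' | hc' | hc'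
    · simp (disch := omega) only [if_pos, if_neg]
      try split_ifs <;> omega
    · simp (disch := omega) only [if_pos, if_neg]
      try split_ifs <;> omega
    · simp (disch := omega) only [if_pos, if_neg]
      try split_ifs <;> omega


lemma balance (l r B T c y : ℤ) (h1 : l ≤ r) (h2 : B ≤ T) :
    lN l r B T c (y - 1) + lE l r B T (c - 1) y + lS l r B T c (y + 1) + lW l r B T (c + 1) y
      = lN l r B T c y + lE l r B T c y + lS l r B T c y + lW l r B T c y := by
  rcases lt_trichotomy y (B - 1) with hy | hy | hy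
  · exact balance_below l r B T c y h1 h2 (by omega)
  · exact balance_b1 l r B T c y h1 h2 hy
  · rcases lt_trichotomy y (T + 1) with hy' | hy' | hy'
    · exact balance_mid l r B T c y h1 h2 (by omega) (by omega)
    · exact balance_t1 l r B T c y h1 h2 hy'
    · exact balance_above l r B T c y h1 h2 (by omega)

end Pool.Rotor
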