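import Pool.Agent.V11330.Rotor.Layer

namespace Pool.Rotor

/-- the index of the first exit -/
def phase (l r B T c y : ℤ) : Fin 5 :=
  if T + 1 ≤ y then
    (if l ≤ c then (if y = T + 1 then 3 else 4)
      else (if l - 1 - (y - T) < c then 4 else 3))
  else if y ≤ B - 1 then
    (if l ≤ c then (if y = B - 1 then 0 else 1)
      else (if l - 1 - (B - y) ≤ c then 2 else 3))
  else if c = l - 1 then 2 else if r + 1 ≤ c then 4 else 3

/-- the rotor after `u` exits -/
def rot (q : Fin 5) (u : ℕ) : Fin 5 := (· + 1)^[u] q

lemma rot_succ (q : Fin 5) (u : ℕ) : rot q (u + 1) = rot q u + 1 := by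
  unfold rot
  rw [Function.iterate_succ_apply']

/-- number of exits of type `d` among the first `u` exits, `q` being the initial rotor -/
def cnt (d : Fin 5 → Bool) (q : Fin 5) : ℕ → ℕ
  | 0 => 0
  | u + 1 => cnt d q u + if d (rot q u + 1) then 1 else 0

def dN : Fin 5 → Bool := ![true, true, false, false, false]
def dE : Fin 5 → Bool := ![false, false, true, false, false]
def dS : Fin 5 → Bool := ![false, false, false, true, false]
def dW : Fin 5 → Bool := ![false, false, false, false, true]

lemma cnt_mono (d : Fin 5 → Bool) (q : Fin 5) {u v : ℕ} (h : u ≤ v) : cnt d q u ≤ cnt d q v := by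
  induction v, h using Nat.le_induction with
  | base => exact le_rfl
  | succ v _ ih => exact ih.trans (Nat.le_add_right _ _)

lemma cnt_add_five (d : Fin 5 → Bool) (K : ℕ)
    (hK : ∀ z : Fin 5, (if d (z + 1) then 1 else 0) + (if d (z + 1 + 1) then 1 else 0)
      + (if d (z + 1 + 1 + 1) then 1 else 0) + (if d (z + 1 + 1 + 1 + 1) then 1 else 0)
      + (if d (z + 1 + 1 + 1 + 1 + 1) then 1 else 0) = K) (q : Fin 5) (u : ℕ) :
    cnt d q (u + 5) = cnt d q u + K := by
  rw [← hK (rot q u)]
  simp only [cnt, rot_succ]
  ring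

lemma cntN_add_five (q : Fin 5) (u : ℕ) : cnt dN q (u + 5) = cnt dN q u + 2 :=
  cnt_add_five dN 2 (by decide) q u
lemma cntE_add_five (q : Fin 5) (u : ℕ) : cnt dE q (u + 5) = cnt dE q u + 1 :=
  cnt_add_five dE 1 (by decide) q u
lemma cntS_add_five (q : Fin 5) (u : ℕ) : cnt dS q (u + 5) = cnt dS q u + 1 :=
  cnt_add_five dS 1 (by decide) q u
lemma cntW_add_five (q : Fin 5) (u : ℕ) : cnt dW q (u + 5) = cnt dW q u + 1 :=
  cnt_add_five dW 1 (by decide) q u

/-- the exits of a rotor with first exit `p` realise the given numbers -/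
def Good (p : Fin 5) (n e s w : ℕ) : Prop :=
  cnt dN (p - 1) (n + e + s + w) = n ∧ cnt dE (p - 1) (n + e + s + w) = e ∧
    cnt dS (p - 1) (n + e + s + w) = s ∧ cnt dW (p - 1) (n + e + s + w) = w

instance (p : Fin 5) (n e s w : ℕ) : Decidable (Good p n e s w) := by
  unfold Good; infer_instance

lemma good_layer (l r B T c y : ℤ) (h1 : l ≤ r) (h2 : B ≤ T)
    (hR : ¬ (B ≤ y ∧ y ≤ T ∧ l ≤ c ∧ c ≤ r))
    (hc1 : l - 1 - (r - l + 1) ≤ c) (hc2 : c ≤ r + 1) (hy1 : B - (r - l + 1) ≤ y)
    (hy2 : y ≤ T + (r - l + 1)) :
    Good (phase l r B T c y) (lN l r B T c y) (lE l r B T c y) (lS l r B T c y)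
      (lW l r B T c y) := by
  unfold phase lN lE lS lW
  rcases lt_or_ge T y with hy | hy
  · -- above
    rcases lt_or_ge c l with hc | hc
    · rcases lt_or_ge (l - 1 - (y - T)) c with hd | hd
      · simp (disch := omega) only [if_pos, if_neg]
        first | decide | (split_ifs <;> first | decide | omega)
      · simp (disch := omega) only [if_pos, if_neg]
        first | decide | (split_ifs <;> first | decide | omega)
    · rcases eq_or_ne y (T + 1) with hy' | hy'
      · simp (disch := omega) only [if_pos, if_neg]
        first | decide | (split_ifs <;> first | decide | omega)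
      · simp (disch := omega) only [if_pos, if_neg]
        first | decide | (split_ifs <;> first | decide | omega)
  · rcases lt_or_ge y B with hy' | hy'
    · rcases lt_or_ge c l with hc | hc
      · rcases lt_or_ge c (l - 1 - (B - y)) with hd | hd
        · simp (disch := omega) only [if_pos, if_neg]
          first | decide | (split_ifs <;> first | decide | omega)
        · simp (disch := omega) only [if_pos, if_neg]
          first | decide | (split_ifs <;> first | decide | omega)
      · rcases eq_or_ne y (B - 1) with hy' | hy'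
        · simp (disch := omega) only [if_pos, if_neg]
          first | decide | (split_ifs <;> first | decide | omega)
        · simp (disch := omega) only [if_pos, if_neg]
          first | decide | (split_ifs <;> first | decide | omega)
    · rcases lt_trichotomy c (l - 1) with hc | hc | hc
      · simp (disch := omega) only [if_pos, if_neg]
        first | decide | (split_ifs <;> first | decide | omega)
      · simp (disch := omega) only [if_pos, if_neg]
        first | decide | (split_ifs <;> first | decide | omega)
      · simp (disch := omega) only [if_pos, if_neg]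
        first | decide | (split_ifs <;> first | decide | omega)

lemma layer_zero (l r B T c y : ℤ) (h1 : l ≤ r) (h2 : B ≤ T)
    (h : ¬ (B - (r - l + 1) ≤ y ∧ y ≤ T + (r - l + 1) ∧ l - 1 - (r - l + 1) ≤ c ∧ c ≤ r + 1)) :
    lN l r B T c y = 0 ∧ lE l r B T c y = 0 ∧ lS l r B T c y = 0 ∧ lW l r B T c y = 0 := by
  refine ⟨?_, ?_, ?_, ?_⟩
  · unfold lN; simp (disch := omega) only [if_neg]
  · unfold lE; simp (disch := omega) only [if_neg]
  · unfold lS; simp (disch := omega) only [if_neg]
  · unfold lW; simp (disch := omega) only [if_neg]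

lemma layer_in (l r B T c y : ℤ) (h : B ≤ y ∧ y ≤ T ∧ l ≤ c ∧ c ≤ r) :
    lN l r B T c y = 2 ∧ lE l r B T c y = 1 ∧ lS l r B T c y = 1 ∧ lW l r B T c y = 1 := by
  refine ⟨?_, ?_, ?_, ?_⟩
  · unfold lN; rw [if_pos h]
  · unfold lE; rw [if_pos h]
  · unfold lS; rw [if_pos h]
  · unfold lW; rw [if_pos h]

end Pool.Rotor
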