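import Pool.Agent.V11330.Rotor.Config

namespace Pool.Rotor

/-- the directions -/
def dirs : Fin 5 → ℤ × ℤ := ![(0, 1), (0, 1), (1, 0), (0, -1), (-1, 0)]

/-- one step of the rotor walk -/
def stepF (s : (ℤ × ℤ) × (ℤ × ℤ → Fin 5)) : (ℤ × ℤ) × (ℤ × ℤ → Fin 5) :=
  (s.1 + dirs (s.2 s.1 + 1), Function.update s.2 s.1 (s.2 s.1 + 1))

section
variable (r : ℤ × ℤ → Fin 5)

/-- position at time `n` -/
def pos (n : ℕ) : ℤ × ℤ := (stepF^[n] ((0, 0), r)).1

/-- rotors at time `n` -/
def rt (n : ℕ) : ℤ × ℤ → Fin 5 := (stepF^[n] ((0, 0), r)).2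

/-- number of exits from `x` before time `n` -/
def U : ℕ → ℤ × ℤ → ℕ
  | 0 => fun _ => 0
  | n + 1 => fun x => U n x + if pos r n = x then 1 else 0

lemma pos_succ (n : ℕ) : pos r (n + 1) = pos r n + dirs (rt r n (pos r n) + 1) := by
  unfold pos rt
  rw [Function.iterate_succ_apply']
  rfl

lemma rt_succ (n : ℕ) :
    rt r (n + 1) = Function.update (rt r n) (pos r n) (rt r n (pos r n) + 1) := by
  unfold pos rt
  rw [Function.iterate_succ_apply']
  rfl

lemma rt_eq (n : ℕ) (x : ℤ × ℤ) : rt r n x = rot (r x) (U r n x) := by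
  induction n with
  | zero => rfl
  | succ n ih =>
    rw [rt_succ]
    show _ = rot (r x) (U r n x + if pos r n = x then 1 else 0)
    by_cases h : pos r n = x
    · rw [if_pos h, h, Function.update_self, ih, rot_succ]
    · rw [if_neg h, Function.update_of_ne (fun h' => h h'.symm), ih, add_zero]

lemma cnt_U_succ (d : Fin 5 → Bool) (n : ℕ) (x : ℤ × ℤ) :
    cnt d (r x) (U r (n + 1) x) = cnt d (r x) (U r n x)
      + if pos r n = x ∧ d (rt r n (pos r n) + 1) = true then 1 else 0 := by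
  show cnt d (r x) (U r n x + if pos r n = x then 1 else 0) = _
  by_cases h : pos r n = x
  · rw [if_pos h]
    show cnt d (r x) (U r n x) + (if d (rot (r x) (U r n x) + 1) then 1 else 0) = _
    rw [← rt_eq, h]
    simp
  · rw [if_neg h, if_neg (fun h' => h h'.1)]
    rfl

/-- exits and arrivals -/
lemma arrivals (n : ℕ) (x : ℤ × ℤ) :
    (if pos r n = x then 1 else 0) + U r n x
      = (if x = (0, 0) then 1 else 0) + inflow r (U r n) x := by
  induction n with
  | zero =>
    have h1 : pos r 0 = (0, 0) := rfl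
    have h2 : inflow r (U r 0) x = 0 := by simp [inflow, U, cnt]
    rw [h1, h2]
    show _ + 0 = _
    by_cases hx : x = (0, 0)
    · rw [if_pos hx.symm, if_pos hx]
    · rw [if_neg (fun h => hx h.symm), if_neg hx]
  | succ n ih =>
    have h1 : inflow r (U r (n + 1)) x = inflow r (U r n) x
        + (if pos r (n + 1) = x then 1 else 0) := by
      unfold inflow
      rw [cnt_U_succ, cnt_U_succ, cnt_U_succ, cnt_U_succ, pos_succ]
      obtain ⟨c, y⟩ := x
      obtain ⟨a, b⟩ := pos r n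
      generalize rt r n (a, b) + 1 = j
      fin_cases j <;> simp [dN, dE, dS, dW, dirs, Prod.ext_iff] <;> (split_ifs <;> omega)
    rw [h1]
    show _ + (U r n x + if pos r n = x then 1 else 0) = _
    omega

lemma inflow_mono {u v : ℤ × ℤ → ℕ} (h : ∀ x, u x ≤ v x) (x : ℤ × ℤ) :
    inflow r u x ≤ inflow r v x := by
  unfold inflow
  have h1 := cnt_mono dN (r (x.1, x.2 - 1)) (h (x.1, x.2 - 1))
  have h2 := cnt_mono dE (r (x.1 - 1, x.2)) (h (x.1 - 1, x.2))
  have h3 := cnt_mono dS (r (x.1, x.2 + 1)) (h (x.1, x.2 + 1))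
  have h4 := cnt_mono dW (r (x.1 + 1, x.2)) (h (x.1 + 1, x.2))
  omega

/-- least action principle -/
lemma U_le {v : ℤ × ℤ → ℕ} (hv : ∀ x, x ≠ (0, 0) → inflow r v x ≤ v x)
    (h0 : ∀ n, U r n (0, 0) ≤ v (0, 0)) (n : ℕ) (x : ℤ × ℤ) : U r n x ≤ v x := by
  induction n generalizing x with
  | zero => exact Nat.zero_le _
  | succ n ih =>
    by_cases hx : x = (0, 0)
    · rw [hx]; exact h0 _
    · show U r n x + (if pos r n = x then 1 else 0) ≤ v x
      by_cases hp : pos r n = x
      · rw [if_pos hp]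
        have h1 := arrivals r n x
        rw [if_pos hp, if_neg hx] at h1
        have h2 := inflow_mono r ih x
        have h3 := hv x hx
        omega
      · rw [if_neg hp]
        exact ih x

lemma sum_U {F : Finset (ℤ × ℤ)} (hF : ∀ n x, U r n x ≠ 0 → x ∈ F) (n : ℕ) :
    ∑ x ∈ F, U r n x = n := by
  induction n with
  | zero => simp [U]
  | succ n ih =>
    have h1 : pos r n ∈ F := by
      refine hF (n + 1) _ ?_
      show U r n (pos r n) + (if pos r n = pos r n then 1 else 0) ≠ 0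
      rw [if_pos rfl]; omega
    show ∑ x ∈ F, (U r n x + if pos r n = x then 1 else 0) = _
    rw [Finset.sum_add_distrib, ih, Finset.sum_ite_eq, if_pos h1]

lemma exists_visit {v : ℤ × ℤ → ℕ} {F : Finset (ℤ × ℤ)}
    (hv : ∀ x, x ≠ (0, 0) → inflow r v x ≤ v x) (hF : ∀ x, v x ≠ 0 → x ∈ F) :
    ∃ n, v (0, 0) < U r n (0, 0) := by
  by_contra hcon
  push Not at hcon
  have h1 := U_le r hv hcon
  have h2 : ∀ n x, U r n x ≠ 0 → x ∈ F := fun n x h => hF x (by have := h1 n x; omega)
  have h3 := sum_U r h2 (∑ x ∈ F, v x + 1)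
  have h4 : ∑ x ∈ F, U r (∑ x ∈ F, v x + 1) x ≤ ∑ x ∈ F, v x :=
    Finset.sum_le_sum fun x _ => h1 _ x
  omega

lemma U_card (n : ℕ) : U r n (0, 0) = ((Finset.range n).filter fun m => pos r m = (0, 0)).card := by
  induction n with
  | zero => rfl
  | succ n ih =>
    rw [Finset.range_add_one, Finset.filter_insert]
    show U r n (0, 0) + (if pos r n = (0, 0) then 1 else 0) = _
    by_cases h : pos r n = (0, 0)
    · rw [if_pos h, if_pos h, Finset.card_insert_of_notMem (by simp), ih]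
    · rw [if_neg h, if_neg h, ih]; rfl

end

lemma vv_support (k : ℕ) : ∃ F : Finset (ℤ × ℤ), ∀ x, vv k x ≠ 0 → x ∈ F := by
  refine ⟨Finset.Icc (bx k).1 (bx k).2.1 ×ˢ Finset.Icc (bx k).2.2.1 (bx k).2.2.2, fun x hx => ?_⟩
  have h : In k x := by
    by_contra hcon
    exact hx (vv_zero hcon)
  obtain ⟨h1, h2, h3, h4⟩ := h
  rw [Finset.mem_product, Finset.mem_Icc, Finset.mem_Icc]
  exact ⟨⟨h3, h4⟩, h1, h2⟩

/-- the rotor walk returns to the origin infinitely often -/
theorem recurrent : ¬ Set.Finite {n : ℕ | pos r0 n = (0, 0)} := by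
  intro hfin
  obtain ⟨F, hF⟩ := vv_support hfin.toFinset.card
  obtain ⟨n, hn⟩ := exists_visit r0 (v := vv hfin.toFinset.card)
    (fun x _ => (inflow_vv _ x).le) hF
  rw [vv_origin, U_card] at hn
  have h1 : (Finset.range n).filter (fun m => pos r0 m = (0, 0)) ⊆ hfin.toFinset := by
    intro m hm
    rw [Set.Finite.mem_toFinset]
    exact (Finset.mem_filter.1 hm).2
  have h2 := Finset.card_le_card h1
  omega

end Pool.Rotor
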